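import Mathlib

/-!
# Superelliptic rings `F[y][x] / (x ^ a - f(y))` are Dedekind domains
-/

set_option autoImplicit false

open Polynomial

namespace Pool.Agent.W2helper28.FR

section

variable {F : Type} [Field F] {a : ℕ} {f : F[X]}

/-- the polynomial `x ^ a - f` -/
noncomputable abbrev gg (a : ℕ) (f : F[X]) : F[X][X] := X ^ a - C f

theorem gg_monic (ha : a ≠ 0) : (gg a f).Monic := monic_X_pow_sub_C f ha

theorem gg_deg : (gg a f).natDegree = a := natDegree_X_pow_sub_C

theorem gg_eis (ha : a ≠ 0) (hf : Squarefree f) {p : F[X]} (hp : Prime p) (hpf : p ∣ f) :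
    (gg a f).IsEisensteinAt (Ideal.span {p}) := by
  refine ⟨?_, ?_, ?_⟩
  · rw [(gg_monic ha).leadingCoeff]
    intro h
    exact hp.not_unit (isUnit_of_dvd_one (Ideal.mem_span_singleton.1 h))
  · intro n hn
    rw [gg_deg] at hn
    rw [coeff_sub, coeff_X_pow, coeff_C, if_neg hn.ne, zero_sub]
    split_ifs
    · exact neg_mem (Ideal.mem_span_singleton.2 hpf)
    · simp
  · rw [coeff_sub, coeff_X_pow, coeff_C, if_neg (Ne.symm ha), if_pos rfl, zero_sub,
      Ideal.span_singleton_pow, Ideal.mem_span_singleton, dvd_neg]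
    intro h
    rw [pow_two] at h
    exact hp.not_unit (hf p h)

theorem exists_prime (hf : Squarefree f) (hd : 0 < f.natDegree) : ∃ p, Prime p ∧ p ∣ f := by
  obtain ⟨p, hp, hpf⟩ := WfDvdMonoid.exists_irreducible_factor
    (fun h => by rw [natDegree_eq_zero_of_isUnit h] at hd; exact lt_irrefl _ hd) hf.ne_zero
  exact ⟨p, hp.prime, hpf⟩

theorem gg_irr (ha : a ≠ 0) (hf : Squarefree f) (hd : 0 < f.natDegree) : Irreducible (gg a f) := by
  obtain ⟨p, hp, hpf⟩ := exists_prime hf hd
  exact (gg_eis ha hf hp hpf).irreducible ((Ideal.span_singleton_prime hp.ne_zero).2 hp)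
    (gg_monic ha).isPrimitive (by rw [gg_deg]; omega)

/-- the polynomial over the field of fractions -/
noncomputable abbrev gK (a : ℕ) (f : F[X]) : (FractionRing F[X])[X] :=
  (gg a f).map (algebraMap F[X] (FractionRing F[X]))

theorem gK_irr (ha : a ≠ 0) (hf : Squarefree f) (hd : 0 < f.natDegree) : Irreducible (gK a f) :=
  ((gg_monic ha).irreducible_iff_irreducible_map_fraction_map).1 (gg_irr ha hf hd)

theorem gK_monic (ha : a ≠ 0) : (gK a f).Monic := (gg_monic ha).map _

theorem gK_eq : gK a f = X ^ a - C (algebraMap F[X] (FractionRing F[X]) f) := by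
  unfold gK gg
  rw [Polynomial.map_sub, Polynomial.map_pow, map_X, map_C]

/-- the embedding in the function field -/
noncomputable def phi (a : ℕ) (f : F[X]) : AdjoinRoot (gg a f) →+* AdjoinRoot (gK a f) :=
  AdjoinRoot.map (algebraMap F[X] (FractionRing F[X])) (gg a f) (gK a f) dvd_rfl

theorem phi_mk (q : F[X][X]) : phi a f (AdjoinRoot.mk (gg a f) q) =
    AdjoinRoot.mk (gK a f) (q.map (algebraMap F[X] (FractionRing F[X]))) := by
  unfold phi AdjoinRoot.map
  rw [AdjoinRoot.lift_mk, ← eval₂_map, ← AdjoinRoot.algebraMap_eq, ← aeval_def,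
    AdjoinRoot.aeval_eq]

theorem phi_inj (ha : a ≠ 0) : Function.Injective (phi a f) := by
  rw [injective_iff_map_eq_zero]
  intro x hx
  obtain ⟨q, rfl⟩ := AdjoinRoot.mk_surjective x
  rw [phi_mk, AdjoinRoot.mk_eq_zero] at hx
  rw [AdjoinRoot.mk_eq_zero]
  exact (map_dvd_map _ (IsFractionRing.injective _ _) (gg_monic ha)).1 hx

theorem dK : derivative (gK a f) = C (a : FractionRing F[X]) * X ^ (a - 1) := by
  rw [gK_eq, derivative_sub, derivative_X_pow, derivative_C, sub_zero]

theorem cK0 (ha : a ≠ 0) : (gK a f).coeff 0 = -(algebraMap F[X] (FractionRing F[X]) f) := by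
  rw [gK_eq, coeff_sub, coeff_X_pow, coeff_C, if_neg (Ne.symm ha), if_pos rfl, zero_sub]

/-- the removal of prime factors -/
theorem remove [Fact (Irreducible (gK a f))] (ha : a ≠ 0) (hf : Squarefree f)
    (B : PowerBasis (FractionRing F[X]) (AdjoinRoot (gK a f)))
    (hBint : IsIntegral F[X] B.gen) (hmin : minpoly F[X] B.gen = gg a f) (q : F[X]) (hq : q ≠ 0) :
    (∀ p, Prime p → p ∣ q → p ∣ f) → ∀ z : AdjoinRoot (gK a f), IsIntegral F[X] z →
      q • z ∈ Algebra.adjoin F[X] ({B.gen} : Set (AdjoinRoot (gK a f))) →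
      z ∈ Algebra.adjoin F[X] ({B.gen} : Set (AdjoinRoot (gK a f))) := by
  induction q using UniqueFactorizationMonoid.induction_on_prime with
  | h₁ => exact absurd rfl hq
  | h₂ u hu =>
    intro _ z _ h
    obtain ⟨v, hv⟩ := hu.exists_left_inv
    have := Subalgebra.smul_mem _ h v
    rwa [smul_smul, hv, one_smul] at this
  | h₃ q p hq0 hp ih =>
    intro hdiv z hz h
    rw [mul_smul] at h
    have hzq : IsIntegral F[X] (q • z) := hz.smul q
    have h1 := mem_adjoin_of_smul_prime_smul_of_minpoly_isEisensteinAt (K := FractionRing F[X])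
      (B := B) hp hBint hzq h (by rw [hmin]; exact gg_eis ha hf hp (hdiv p hp (dvd_mul_right p q)))
    exact ih hq0 (fun p' hp' h' => hdiv p' hp' (h'.mul_left p)) z hz h1

/-- the superelliptic ring is a Dedekind domain -/
theorem ded [CharZero F] (ha : a ≠ 0) (hf : Squarefree f) (hd : 0 < f.natDegree) :
    IsDedekindDomain (AdjoinRoot (gg a f)) := by
  classical
  have hK : CharZero (FractionRing F[X]) :=
    charZero_of_injective_algebraMap (R := F[X]) (IsFractionRing.injective F[X] (FractionRing F[X]))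
  have hirr := gK_irr ha hf hd
  have : Fact (Irreducible (gK a f)) := ⟨hirr⟩
  have hf0 := hf.ne_zero
  set K := FractionRing F[X] with hKdef
  set L := AdjoinRoot (gK a f) with hL
  set B : PowerBasis K L := AdjoinRoot.powerBasis hirr.ne_zero with hB
  have hgen : B.gen = AdjoinRoot.root (gK a f) := AdjoinRoot.powerBasis_gen _
  have haev : aeval B.gen (gg a f) = 0 := by
    rw [hgen]
    have := AdjoinRoot.eval₂_root (gK a f)
    rw [eval₂_map] at this
    exact this
  have hBint : IsIntegral F[X] B.gen := ⟨gg a f, gg_monic ha, haev⟩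
  have hminK : minpoly K B.gen = gK a f := by
    rw [hgen]
    rw [AdjoinRoot.minpoly_root hirr.ne_zero, (gK_monic ha).leadingCoeff, inv_one, C_1, mul_one]
  have hmin : minpoly F[X] B.gen = gg a f := by
    have h1 := minpoly.isIntegrallyClosed_eq_field_fractions' K hBint
    rw [hminK] at h1
    exact (map_injective _ (IsFractionRing.injective F[X] K) h1).symm
  have hfin : FiniteDimensional K L := B.finite
  have hsep : Algebra.IsSeparable K L := inferInstance
  -- the discriminant
  have hdisc : ∃ c : F[X], IsUnit c ∧ Algebra.discr K B.basis = algebraMap F[X] K (c * f ^ (a - 1)) := by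
    rw [Algebra.discr_powerBasis_eq_norm, hminK]
    have hder : aeval B.gen (derivative (gK a f)) =
        algebraMap K L (a : K) * B.gen ^ (a - 1) := by
      rw [dK, map_mul, aeval_C, map_pow, aeval_X]
    have hnorm : Algebra.norm K B.gen = (-1) ^ B.dim * (-(algebraMap F[X] K f)) := by
      rw [Algebra.PowerBasis.norm_gen_eq_coeff_zero_minpoly, hminK, cK0 ha]
    rw [hder, map_mul, map_pow, Algebra.norm_algebraMap, hnorm]
    refine ⟨C ((-1) ^ (B.dim * (B.dim - 1) / 2) * ((a : F) ^ Module.finrank K L * ((-1) ^ (B.dim) * (-1)) ^ (a - 1))), ?_, ?_⟩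
    · rw [isUnit_C, isUnit_iff_ne_zero]
      have h1 : (a : F) ≠ 0 := by exact_mod_cast ha
      have h2 : (-1 : F) ≠ 0 := by norm_num
      positivity
    · simp only [map_mul, map_pow, map_neg, map_one, map_natCast]
      rw [B.finrank]
      ring
  -- integral elements
  have hint : ∀ z : L, IsIntegral F[X] z → z ∈ Algebra.adjoin F[X] ({B.gen} : Set L) := by
    intro z hz
    obtain ⟨c, hc, hcd⟩ := hdisc
    have h1 := Algebra.discr_mul_isIntegral_mem_adjoin K hBint hz
    rw [hcd, algebraMap_smul] at h1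
    refine remove ha hf B hBint hmin (c * f ^ (a - 1)) (mul_ne_zero hc.ne_zero (pow_ne_zero _ hf0))
      ?_ z hz h1
    intro p hp hpd
    rcases hp.dvd_or_dvd hpd with h | h
    · exact absurd (isUnit_of_dvd_unit h hc) hp.not_unit
    · exact hp.dvd_of_dvd_pow h
  letI : Algebra (AdjoinRoot (gg a f)) L := (phi a f).toAlgebra
  have halg : ∀ x, algebraMap (AdjoinRoot (gg a f)) L x = phi a f x := fun x => rfl
  have htow : IsScalarTower F[X] (AdjoinRoot (gg a f)) L := by
    apply IsScalarTower.of_algebraMap_eq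
    intro q
    rw [halg, AdjoinRoot.algebraMap_eq]
    show _ = phi a f (AdjoinRoot.mk (gg a f) (C q))
    rw [phi_mk, map_C]
    rfl
  have hfinA : Module.Finite F[X] (AdjoinRoot (gg a f)) := (gg_monic ha).finite_adjoinRoot
  have hintA : Algebra.IsIntegral F[X] (AdjoinRoot (gg a f)) := Algebra.IsIntegral.of_finite _ _
  have hIC : IsIntegralClosure (AdjoinRoot (gg a f)) F[X] L := by
    refine ⟨phi_inj ha, fun {z} => ⟨fun hz => ?_, ?_⟩⟩
    · have h1 := hint z hz
      rw [Algebra.adjoin_singleton_eq_range_aeval] at h1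
      obtain ⟨q, hq⟩ := h1
      refine ⟨AdjoinRoot.mk (gg a f) q, ?_⟩
      rw [halg, phi_mk, ← hq, hgen]
      show _ = aeval (AdjoinRoot.root (gK a f)) q
      rw [← AdjoinRoot.aeval_eq, aeval_map_algebraMap]
    · rintro ⟨y, rfl⟩
      exact (hintA.isIntegral y).algebraMap
  have hdom : IsDomain (AdjoinRoot (gg a f)) := (phi_inj ha).isDomain (phi a f)
  exact IsIntegralClosure.isDedekindDomain F[X] K L (AdjoinRoot (gg a f))

end

end Pool.Agent.W2helper28.FR
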