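import Pool.Agent.W2helper32.FR.Stm
import Pool.Agent.W2helper28.FR.Ded0

/-!
# Piece DEDA: the ring of `x ^ a = y ^ (a - 1) - 1` is a Dedekind domain
-/

set_option autoImplicit false

open Polynomial Pool.Agent.W2helper32.FR

namespace Pool.Agent.W2helper28.FR

theorem deda : S_DEDA := by
  intro F _ _ a ha
  have h1 : ((a - 1 : ℕ) : F) ≠ 0 := by
    have : a - 1 ≠ 0 := by omega
    exact_mod_cast this
  have h2 : Gy F a = X ^ (a - 1) - C 1 := by unfold Gy; rw [C_1]
  have h3 : (Gy F a).Separable := by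
    rw [h2]; exact separable_X_pow_sub_C 1 h1 one_ne_zero
  have h4 : (Gy F a).natDegree = a - 1 := by
    rw [h2]; exact natDegree_X_pow_sub_C
  exact ded (a := a) (f := Gy F a) (by omega) h3.squarefree (by omega)

end Pool.Agent.W2helper28.FR
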